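import Pool.Agent.KS6_31.FQ.F

/-!
# Cayley decompositions from the `ℚ`-codegree, with the sharp threshold

Let `P` be an `n`-dimensional lattice polytope and `1 ≤ j ≤ n`. If `μ(P) > (n + j) / 2`, then `P` is a
Cayley polytope of `j + 1` nonempty lattice polytopes (in `ℝ^(n-j)`); for `j = 1` this is Question 1,
for all `n`. The same holds for the larger Fine `ℚ`-codegree `μ_F`, for which all integer
functionals are used instead of the facet normals. The threshold `(n + j) / 2` is sharp for every
`j`, already for `μ`. For every convex body `K` with lattice width `w` (a real number) one has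
`μ_F(K) w ≤ n + 1`, with equality if and only if `K` is a unimodular copy of `w Δ_n`.

Proof of the first part. If `t > 1 / μ_F(P)`, compactness gives finitely many integer functionals
`u` for which `⟨u, x⟩ ≥ min_P u + t` has no solution. At a point where the least of the distances
`d_u(x) = ⟨u, x⟩ - min_P u` is maximal, equal to `s < t`, the active functionals contain `0` in their
convex hull. So there are affinely independent active `u_i` and weights `w_i > 0` of sum `1` with
`∑ w_i u_i = 0`, hence `∑ w_i d_i(x) = s` for all `x`. On `P` every `w_i d_i ≤ s`, so that `w_i` is at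
most `s` divided by the width of `P` along `u_i`. Counting shows that more than `j - 1` of the `w_i`
exceed `s / 2`. The width along these `u_i` is one, and no vertex of `P` has `d_i = d_k = 1` for two
of them.
-/

set_option autoImplicit false

namespace Pool.Agent.Results.MP_f2eb3d_co.CayleyDecomposition

open Pool.Agent.Results.MP_f2eb3d_co.WidthOne Pool.Agent.Y40.WC Pool.Agent.KS6_31.FQ

/-- Let `n ≥ 1`.

(1) For every `n`-dimensional lattice polytope `P`: the Fine `ℚ`-codegree is at least the
`ℚ`-codegree; if it is larger than `(n+1)/2`, then `P` has lattice width one; if it is larger than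
`(n+j)/2` with `1 ≤ j ≤ n`, then `P` is a Cayley polytope of `j + 1` lattice polytopes; its product
with the lattice width `w` is at most `n + 1`, with equality exactly for `P ≅ w Δ_n`.

(2) For `1 ≤ j ≤ n` there is an `n`-dimensional lattice polytope with both codegrees equal to
`(n+j)/2` that is not a Cayley polytope of `j + 1` lattice polytopes.

(3) For every convex body `K` in `ℝ^n` the lattice width `w` is positive and attained, and the
product of the Fine `ℚ`-codegree and `w` is at most `n + 1`, with equality if and only if `K` is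
the image of `w Δ_n` under `x ↦ A x + t` with `A` in `GL_n(ℤ)` and `t` in `ℝ^n`. -/
theorem result (n : ℕ) (hn : 1 ≤ n) :
    (∀ P : Set (Fin n → ℝ), IsLatticePolytope P →
      qcodeg P ≤ fineCodeg P ∧
      (((n : ℝ) + 1) / 2 < fineCodeg P → HasWidthOne P) ∧
      (∀ j : ℕ, 1 ≤ j → j ≤ n → ((n : ℝ) + j) / 2 < fineCodeg P → IsCayley P j) ∧
      ∃ w : ℕ, 1 ≤ w ∧ IsWidth P w ∧ fineCodeg P * w ≤ n + 1 ∧
        (fineCodeg P * w = n + 1 ↔ IsDilatedSimplex P w)) ∧
    (∀ j : ℕ, 1 ≤ j → j ≤ n → ∃ P : Set (Fin n → ℝ), IsLatticePolytope P ∧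
      qcodeg P = ((n : ℝ) + j) / 2 ∧ fineCodeg P = ((n : ℝ) + j) / 2 ∧ ¬ IsCayley P j) ∧
    ∀ K : Set (Fin n → ℝ), IsBody K → 0 < latWidth K ∧
      (∃ u : Fin n → ℤ, u ≠ 0 ∧ hi K u - lo K u = latWidth K) ∧
      fineCodeg K * latWidth K ≤ n + 1 ∧
      (fineCodeg K * latWidth K = n + 1 ↔ IsStdSimplex K (latWidth K)) := by
  refine ⟨fun P hP => ?_, fun j hj1 hj => ?_, fun K hK => ?_⟩
  · have hK := body_of hP
    obtain ⟨hf0, hle, hiff⟩ := body hn hK
    obtain ⟨w, hw1, hw, hW⟩ := lattice hn hP
    rw [hw] at hle hiff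
    refine ⟨qcodeg_le hn hP, fun h => ?_, fun j hj1 hj h => cayley hn hP hj1 hj h, w, hw1, hW,
      hle, fun h => dilated_of_std hP (hiff.1 h), fun h => hiff.2 (std_of_dilated h)⟩
    have hw0 : (0 : ℝ) < w := by exact_mod_cast hw1
    have h1 := mul_lt_mul_of_pos_right h hw0
    have hn1 : (0 : ℝ) < (n : ℝ) + 1 := by positivity
    have h2 : ((n : ℝ) + 1) * w < (n + 1) * 2 := by linarith
    have h3 : (w : ℝ) < 2 := lt_of_mul_lt_mul_left h2 hn1.le
    have h4 : w < 2 := by exact_mod_cast h3
    obtain rfl : w = 1 := by omega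
    obtain ⟨l, hl, M, m, hM, hm, hMm⟩ := hW.1
    exact ⟨l, hl, M, m, hM, hm, by rw [hMm, Nat.cast_one]⟩
  · have hP := SP_lattice hn j
    have h1 := SP_qcodeg hn hj1 hj
    have h2 := qcodeg_le hn hP
    have h3 := SP_not hj1 hj
    have h4 : fineCodeg (SP n j) ≤ ((n : ℝ) + j) / 2 :=
      not_lt.1 fun h => h3 (cayley hn hP hj1 hj h)
    exact ⟨SP n j, hP, le_antisymm (h2.trans h4) h1, le_antisymm h4 (h1.trans h2), h3⟩
  · obtain ⟨h1, -, h3⟩ := latWidth_spec hn hK
    obtain ⟨-, h4, h5⟩ := body hn hK
    exact ⟨h3, h1, h4, h5⟩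

end Pool.Agent.Results.MP_f2eb3d_co.CayleyDecomposition
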